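import Pool.Agent.Y613.BL.Main
import Pool.Agent.Y613.BL.Prod

/-!
# Sets decided by machines with few states: subspaces of linear dimension

We consider subsets of `G ^ n`, for example of `F_p ^ n`, which are decided by nondeterministic
machines with `w` states that read the `n` coordinates once, in an arbitrary order, and the unions
of `T` such sets, with different machines and orders.

(1) For every alphabet `G` and every `w` there are `η > 0` and `lam < |G|` such that every union `A`
of `T` such sets with more than `4 T lam ^ n` elements contains a combinatorial subspace of dimension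
at least `η n` (and at least one). For `G = F_p` it is an affine subspace.

(2) Hence the subsets of `F_p ^ n` without nontrivial `k`-term arithmetic progression which are unions
of `T` such sets have at most `4 T lam ^ n` elements, with the same `lam < p` for all `k`.

(3) Conversely the powers of any progression-free set of `F_p ^ m` are decided with `p ^ m` states. So
the supremum over `w` of the growth rates of (2) is the number `λ_{k,p}` of the problem.

The proof of (1): by the Hales-Jewett theorem there is `l` such that in every block of `l` coordinates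
there is a combinatorial line with the same transitions of the machine for all its points. A point of
the set in which many of the blocks are on the line of the block is contained in a subspace, and
the number of the points with few such blocks is exponentially smaller than `|G| ^ n`.
-/

set_option autoImplicit false

open Finset

namespace Pool.Agent.Results.MP_b30443_co.BoundedMemorySubspaces

/-- A nondeterministic machine with state set `Q` over the alphabet `G`; the transitions may depend
on the time. -/
structure Machine (Q G : Type) where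
  /-- initial states -/
  start : Q → Prop
  /-- `step t q g q'`: at time `t`, in the state `q`, after reading `g`, it may enter the state `q'` -/
  step : ℕ → Q → G → Q → Prop
  /-- accepting states -/
  accept : Q → Prop

/-- The machine reads the letters of `x` in the given order, each one once, and has an accepting
run. -/
def Machine.Accepts {Q G : Type} (M : Machine Q G) {n : ℕ} (order : Fin n ≃ Fin n)
    (x : Fin n → G) : Prop :=
  ∃ r : ℕ → Q, M.start (r 0) ∧ M.accept (r n) ∧
    ∀ t : Fin n, M.step t (r t) (x (order t)) (r (t + 1))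

/-- `B` is decided by a machine with at most `w` states that reads the `n` coordinates once, in some
order. -/
def Decided (w : ℕ) {G : Type} {n : ℕ} (B : Set (Fin n → G)) : Prop :=
  ∃ (Q : Type) (_ : Fintype Q) (M : Machine Q G) (order : Fin n ≃ Fin n),
    Fintype.card Q ≤ w ∧ ∀ x, x ∈ B ↔ M.Accepts order x

/-- `A` contains a combinatorial subspace of dimension `d`: the coordinates `i` with `idx i = none`
are constant, and the others are divided into `d` nonempty classes; the coordinates of each class
are equal to each other and arbitrary. -/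
def ContainsSubspace (d : ℕ) {G : Type} {n : ℕ} (A : Set (Fin n → G)) : Prop :=
  ∃ (c : Fin n → G) (idx : Fin n → Option (Fin d)), (∀ j, ∃ i, idx i = some j) ∧
    ∀ a : Fin d → G, (fun i => (idx i).elim (c i) a) ∈ A

/-- `A` contains no nontrivial `k`-term arithmetic progression. -/
def APFree (k : ℕ) {p n : ℕ} (A : Set (Fin n → ZMod p)) : Prop :=
  ∀ x y : Fin n → ZMod p, (∀ i < k, x + i • y ∈ A) → y = 0

/-- a subspace of positive dimension contains progressions -/
theorem not_apFree {k p n d : ℕ} [Fact p.Prime] (hd : 1 ≤ d) {A : Set (Fin n → ZMod p)}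
    (h : ContainsSubspace d A) : ¬ APFree k A := by
  obtain ⟨c, idx, h1, h2⟩ := h
  intro hA
  have h3 := hA (fun i => (idx i).elim (c i) fun _ => 0)
    (fun i => (idx i).elim 0 fun _ => 1) (fun t _ => by
      convert h2 (fun _ => (t : ZMod p)) using 1
      funext i
      simp only [Pi.add_apply, Pi.smul_apply]
      rcases idx i with _ | j
      · simp
      · simp)
  obtain ⟨i, hi⟩ := h1 ⟨0, hd⟩
  have h4 := congrFun h3 i
  simp only [hi, Option.elim_some, Pi.zero_apply] at h4
  exact one_ne_zero h4

/-- **Main result.** -/
theorem result :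
    -- (1) subspaces of linear dimension
    (∀ (G : Type) [Fintype G] [Nontrivial G] (w : ℕ), ∃ η lam : ℝ, 0 < η ∧ 0 < lam ∧
      lam < Fintype.card G ∧ ∀ (n T : ℕ) (A : Finset (Fin n → G)) (B : Fin T → Set (Fin n → G)),
        (∀ x, x ∈ A ↔ ∃ s, x ∈ B s) → (∀ s, Decided w (B s)) → 4 * T * lam ^ n < #A →
        ∃ d : ℕ, 1 ≤ d ∧ η * n ≤ d ∧ ContainsSubspace d (A : Set (Fin n → G))) ∧
    -- (2) power saving for sets without progressions
    (∀ (p : ℕ) [Fact p.Prime] (w : ℕ), ∃ lam : ℝ, 0 < lam ∧ lam < p ∧
      ∀ (k n T : ℕ) (A : Finset (Fin n → ZMod p)) (B : Fin T → Set (Fin n → ZMod p)),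
        APFree k (A : Set (Fin n → ZMod p)) → (∀ x, x ∈ A ↔ ∃ s, x ∈ B s) →
        (∀ s, Decided w (B s)) → (#A : ℝ) ≤ 4 * T * lam ^ n) ∧
    -- (3) powers of sets
    (∀ (k p m : ℕ) [Fact p.Prime] (A₀ : Finset (Fin m → ZMod p)), 1 ≤ m →
      APFree k (A₀ : Set (Fin m → ZMod p)) → ∀ r : ℕ, ∃ A : Finset (Fin (r * m) → ZMod p),
        APFree k (A : Set (Fin (r * m) → ZMod p)) ∧ #A = #A₀ ^ r ∧
          Decided (p ^ m) (A : Set (Fin (r * m) → ZMod p))) := by
  classical
  have h1 : ∀ (G : Type) [Fintype G] [Nontrivial G] (w : ℕ), ∃ η lam : ℝ, 0 < η ∧ 0 < lam ∧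
      lam < Fintype.card G ∧ ∀ (n T : ℕ) (A : Finset (Fin n → G)) (B : Fin T → Set (Fin n → G)),
        (∀ x, x ∈ A ↔ ∃ s, x ∈ B s) → (∀ s, Decided w (B s)) → 4 * T * lam ^ n < #A →
        ∃ d : ℕ, 1 ≤ d ∧ η * n ≤ d ∧ ContainsSubspace d (A : Set (Fin n → G)) := by
    intro G _ _ w
    obtain ⟨η, lam, hη, hlam, hlam2, h⟩ := Pool.Agent.Y613.BL.main G w
    refine ⟨η, lam, hη, hlam, hlam2, fun n T A B hB hD hcard => ?_⟩
    -- one of the sets is large
    obtain ⟨s, hs⟩ : ∃ s : Fin T, 4 * lam ^ n < #(B s).toFinset := by
      by_contra hno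
      simp only [not_exists, not_lt] at hno
      have hsub : A ⊆ univ.biUnion fun s => (B s).toFinset := by
        intro x hx
        obtain ⟨s, hs⟩ := (hB x).1 hx
        exact mem_biUnion.2 ⟨s, mem_univ _, Set.mem_toFinset.2 hs⟩
      have h2 : (#A : ℝ) ≤ 4 * T * lam ^ n := by
        calc (#A : ℝ) ≤ ((∑ s, #(B s).toFinset : ℕ) : ℝ) := by
              exact_mod_cast (card_le_card hsub).trans card_biUnion_le
          _ = ∑ s, (#(B s).toFinset : ℝ) := by push_cast; rfl
          _ ≤ ∑ _s : Fin T, 4 * lam ^ n := sum_le_sum fun s _ => hno s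
          _ = 4 * T * lam ^ n := by
              rw [sum_const, card_univ, Fintype.card_fin, nsmul_eq_mul]; ring
      linarith
    obtain ⟨Q, _, M, order, hQ, hM⟩ := hD s
    obtain ⟨d, hd1, hd2, c, idx, h3, h4⟩ := h Q hQ n ⟨M.start, M.step, M.accept⟩ order
      (B s).toFinset (fun x hx => (hM x).1 (Set.mem_toFinset.1 hx)) hs
    refine ⟨d, hd1, hd2, c, idx, h3, fun a => ?_⟩
    exact (hB _).2 ⟨s, (hM _).2 (h4 a)⟩
  refine ⟨h1, ?_, ?_⟩
  · intro p _ w
    have : Nontrivial (ZMod p) := inferInstance
    obtain ⟨η, lam, -, hlam, hlam2, h⟩ := h1 (ZMod p) w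
    rw [ZMod.card] at hlam2
    refine ⟨lam, hlam, hlam2, fun k n T A B hA hB hD => ?_⟩
    by_contra hcard
    obtain ⟨d, hd1, -, hd2⟩ := h n T A B hB hD (not_le.1 hcard)
    exact not_apFree hd1 hd2 hA
  · intro k p m _ A₀ hm hA₀ r
    let A : Finset (Fin (r * m) → ZMod p) :=
      univ.filter fun x => ∀ j : Fin r, (fun a => x (finProdFinEquiv (j, a))) ∈ A₀
    refine ⟨A, ?_, ?_, ?_⟩
    · intro x y hxy
      funext i
      obtain ⟨⟨j, a⟩, rfl⟩ := finProdFinEquiv.surjective i
      have h2 := hA₀ (fun a => x (finProdFinEquiv (j, a))) (fun a => y (finProdFinEquiv (j, a)))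
        (fun t ht => by
          have h3 := hxy t ht
          rw [mem_coe, mem_filter] at h3
          exact h3.2 j)
      exact congrFun h2 a
    · let e : (Fin (r * m) → ZMod p) ≃ (Fin r → Fin m → ZMod p) :=
        (Equiv.arrowCongr finProdFinEquiv.symm (Equiv.refl _)).trans (Equiv.curry _ _ _)
      have h2 : A.map e.toEmbedding = Fintype.piFinset fun _ : Fin r => A₀ := by
        ext u
        rw [mem_map_equiv, Fintype.mem_piFinset, mem_filter]
        constructor
        · rintro ⟨-, h⟩ j
          have h3 := h j
          have h4 : (fun a => e.symm u (finProdFinEquiv (j, a))) = u j := by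
            have h5 : e (e.symm u) j = u j := by rw [e.apply_symm_apply]
            rw [← h5]; rfl
          rwa [h4] at h3
        · intro h
          refine ⟨mem_univ _, fun j => ?_⟩
          have h4 : (fun a => e.symm u (finProdFinEquiv (j, a))) = u j := by
            have h5 : e (e.symm u) j = u j := by rw [e.apply_symm_apply]
            rw [← h5]; rfl
          rw [h4]
          exact h j
      rw [← card_map e.toEmbedding, h2, Fintype.card_piFinset, prod_const, card_univ,
        Fintype.card_fin]
    · have : NeZero p := ⟨(Fact.out : p.Prime).ne_zero⟩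
      refine ⟨Fin m → ZMod p, inferInstance, ⟨fun _ => True,
        (Pool.Agent.Y613.BL.blockMachine m (A₀ : Set (Fin m → ZMod p))).step, fun _ => True⟩,
        Equiv.refl _, ?_, ?_⟩
      · rw [Fintype.card_fun, ZMod.card, Fintype.card_fin]
      · intro x
        rw [mem_coe, mem_filter]
        have h2 := Pool.Agent.Y613.BL.block_accepts m r hm (A₀ : Set (Fin m → ZMod p)) x
        constructor
        · rintro ⟨-, h⟩
          exact h2.2 h
        · intro h
          exact ⟨mem_univ _, h2.1 h⟩

end Pool.Agent.Results.MP_b30443_co.BoundedMemorySubspaces
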