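import Pool.Agent.Y347.CO.Ap
import Pool.Agent.Y891.CO.Affp

set_option autoImplicit false

/-!
# Progression-free subsets of `F_p^n` closed under coordinatewise operations

Exponential savings for all `k ≤ p` for sets without `k`-term progressions that are closed under
semilattice, near unanimity or (relabelled) affine operations, which may be different for the `n`
coordinates and unrelated to the structure of `F_p`.
-/

namespace Pool.Agent.Results.MP_b30443_co.CoordinatewiseOperations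

open Finset Function

/-- `A` contains no nontrivial `k`-term progression `x, x + y, ..., x + (k - 1) y`, `y ≠ 0`. -/
def APFree (k : ℕ) {V : Type} [AddCommGroup V] (A : Finset V) : Prop :=
  ∀ x y : V, (∀ j : ℕ, j < k → x + j • y ∈ A) → y = 0

/-- `A` is defined by conditions on at most `r` coordinates: a word `w` belongs to `A` as soon as on
any `r` coordinates it agrees with some element of `A`. -/
def Local {p n : ℕ} (r : ℕ) (A : Finset (Fin n → ZMod p)) : Prop :=
  ∀ w : Fin n → ZMod p, (∀ J : Finset (Fin n), J.card ≤ r → ∃ a ∈ A, ∀ j ∈ J, a j = w j) → w ∈ A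

/-- `c_p = ((p - 1) + √((p - 1) (p + 3))) / 2` -/
noncomputable def cp (p : ℕ) : ℝ := ((p - 1) + Real.sqrt ((p - 1) * (p + 3))) / 2

/-- **Theorem.** Let `p` be a prime, `k ≤ p` and let `A ⊆ F_p^n` be a set without nontrivial
`k`-term progressions.
(1) If `A` is closed under a coordinatewise operation which in the `i`-th coordinate is an arbitrary
semilattice operation `s i` (commutative, associative, idempotent) on the set `F_p`, for instance the
minimum for any total order, then `|A| ≤ c_p ^ n`, where `c_p < p`. For `p = 3` this is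
`(1 + √3) ^ n`, `1 + √3 < 2.7321`.
(2) Let `ρ ≤ p` and suppose that subsets of `F_p` without nontrivial `k`-term progressions have at
most `ρ` elements. If `A` is defined by conditions on at most `r` coordinates, or is closed under an
operation of arity `r + 1` which in each coordinate is a near unanimity operation, then
`|A| ≤ (p - (p - ρ) / r) ^ n`.
(3) If `A` is closed under the operation which in the `i`-th coordinate is `a - b + c` after an
arbitrary identification `σ i` of the alphabet `F_p` with `F_p`, then `|A| ≤ p ^ (n - n / E)` with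
`E = (k - 1) (p - 1) + 1`. -/
theorem result (p : ℕ) [Fact p.Prime] (k n : ℕ) (hk : 1 ≤ k) (hkp : k ≤ p)
    (A : Finset (Fin n → ZMod p)) (hA : APFree k A) :
    (∀ s : Fin n → ZMod p → ZMod p → ZMod p, (∀ i, (∀ x y, s i x y = s i y x) ∧
        (∀ x y z, s i (s i x y) z = s i x (s i y z)) ∧ ∀ x, s i x x = x) →
      (∀ a ∈ A, ∀ b ∈ A, (fun i => s i (a i) (b i)) ∈ A) → (A.card : ℝ) ≤ cp p ^ n) ∧
    (cp p < p ∧ cp 3 = 1 + Real.sqrt 3 ∧ 1 + Real.sqrt 3 < 2.7321) ∧
    (∀ r ρ : ℕ, 1 ≤ r → ρ ≤ p → (∀ S : Finset (ZMod p), APFree k S → S.card ≤ ρ) →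
      (Local r A ∨ ∃ f : Fin n → (Fin (r + 1) → ZMod p) → ZMod p,
        (∀ i l x y, f i (update (fun _ => x) l y) = x) ∧
        ∀ a : Fin (r + 1) → Fin n → ZMod p, (∀ l, a l ∈ A) →
          (fun i => f i fun l => a l i) ∈ A) →
      (A.card : ℝ) ≤ ((p : ℝ) - (p - ρ) / r) ^ n) ∧
    (∀ σ : Fin n → ZMod p ≃ ZMod p,
      (∀ a ∈ A, ∀ b ∈ A, ∀ c ∈ A,
        (fun i => (σ i).symm (σ i (a i) - σ i (b i) + σ i (c i))) ∈ A) →
      (A.card : ℝ) ≤ (p : ℝ) ^ ((n : ℝ) - n / ((k - 1) * (p - 1) + 1))) := by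
  have hp : Nat.Prime p := Fact.out
  refine ⟨?_, ⟨Y347.CO.cq_lt hp.two_le, ?_, ?_⟩, ?_, ?_⟩
  · intro s hs h
    exact Y347.CO.ap_semi A hA s (fun i => ⟨(hs i).1, (hs i).2.1, (hs i).2.2⟩) h
  · unfold cp
    have h1 : Real.sqrt (((3 : ℕ) - 1 : ℝ) * ((3 : ℕ) + 3)) = 2 * Real.sqrt 3 := by
      have : (((3 : ℕ) - 1 : ℝ) * ((3 : ℕ) + 3)) = 2 ^ 2 * 3 := by norm_num
      rw [this, Real.sqrt_mul (by norm_num), Real.sqrt_sq (by norm_num)]
    rw [h1]
    push_cast
    ring
  · have : Real.sqrt 3 < 1.7321 := by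
      rw [Real.sqrt_lt (by norm_num) (by norm_num)]
      norm_num
    linarith
  · rintro r ρ hr hρ hS (h | ⟨f, hf, hcl⟩)
    · exact Y347.CO.ap_local hr hS hρ A hA h
    · exact Y347.CO.ap_nu hr hS hρ A hA f hf hcl
  · intro σ h
    have h1 := Y891.CO.Affp.done p k n A σ hk hkp hA h
    set E := (k - 1) * (p - 1) + 1 with hE
    have h2 : (A.card : ℝ) ^ E * (p : ℝ) ^ n ≤ ((p : ℝ) ^ n) ^ E := by exact_mod_cast h1
    have hp0 : (0 : ℝ) < p := by exact_mod_cast hp.pos
    have hE0 : (0 : ℝ) < E := by rw [hE]; positivity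
    have hEe : ((k : ℝ) - 1) * (p - 1) + 1 = E := by
      rw [hE]
      push_cast [Nat.cast_sub hk, Nat.cast_sub hp.one_lt.le]
      ring
    rw [hEe]
    have h3 : (A.card : ℝ) ^ E ≤ ((p : ℝ) ^ ((n : ℝ) - n / E)) ^ E := by
      have a1 : ((p : ℝ) ^ ((n : ℝ) - n / E)) ^ E = (p : ℝ) ^ (((n : ℝ) - n / E) * (E : ℝ)) := by
        rw [Real.rpow_mul hp0.le, Real.rpow_natCast]
      have a2 : ((p : ℝ) ^ n) ^ E = (p : ℝ) ^ ((n * E : ℕ) : ℝ) := by
        rw [Real.rpow_natCast, pow_mul]
      have a3 : (p : ℝ) ^ n = (p : ℝ) ^ (n : ℝ) := by rw [Real.rpow_natCast]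
      have a4 : ((p : ℝ) ^ ((n : ℝ) - n / E)) ^ E = ((p : ℝ) ^ n) ^ E / (p : ℝ) ^ n := by
        rw [a1, a2, a3, ← Real.rpow_sub hp0]
        congr 1
        push_cast
        field_simp
      rw [a4, le_div_iff₀ (by positivity)]
      exact h2
    exact le_of_pow_le_pow_left₀ (by omega) (by positivity) h3

end Pool.Agent.Results.MP_b30443_co.CoordinatewiseOperations
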