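import Mathlib
import Pool.Agent.Y607.LP.Form

/-!
# Progression-free sets in `F_p^n` which are decided by small formulas

The formulas are built with AND, OR and NOT from arbitrary tests of one coordinate (`x i ∈ C`); the
size is the number of leaves. We show that a subset of `F_p^n` without `k`-term progressions which
is decided by a formula with `S` leaves, or is a union of `T` such sets, has at most
`T k p^n exp (- c n² / (k² (S + n)))` elements, where `c > 0` is an absolute constant. So the growth
rate of the progression-free sets which are decided by formulas of linear size is smaller than `p`,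
for all `k ≤ p`; the bound is nontrivial for all sizes up to `c' n²`. It is enough that `A` has no
progression whose common difference is a nonzero vector with coordinates `0` and `1`.

Proof. A random restriction leaves one coordinate of every block of `m` coordinates free. Let `x` be
a random point, `A` the set, and look at the functions `z ↦ [x + j z ∈ A]`, `0 ≤ j < k`, on the cube
`{0,1}^E` of the free coordinates. For every fixed `u` the function `b ↦ [u + j b ∈ A]` on the full
cube is computed by an ordinary formula with `S` leaves; since translations are bijective, the first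
functions are distributed like random restrictions of the second ones. So all `k` functions have
degree at most `t < |E| / k`, except with probability `k 4^(-t)`, if `S ≤ c t m²`. Then their product
cannot be the function which is `1` at `z = 0` only, which has degree `|E|`; so `A` contains a
progression starting at `x` if `x ∈ A`.
-/

set_option autoImplicit false

namespace Pool.Agent.Results.MP_b30443_co.SmallFormulas

/-- Formulas over tests of one coordinate. -/
inductive Formula (p n : ℕ) : Type
  /-- the test `x i ∈ C` -/
  | test : Fin n → Set (ZMod p) → Formula p n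
  | not : Formula p n → Formula p n
  | and : Formula p n → Formula p n → Formula p n
  | or : Formula p n → Formula p n → Formula p n

/-- the number of leaves -/
def Formula.leaves {p n : ℕ} : Formula p n → ℕ
  | .test _ _ => 1
  | .not f => f.leaves
  | .and f g => f.leaves + g.leaves
  | .or f g => f.leaves + g.leaves

/-- the formula accepts `x` -/
def Formula.Accepts {p n : ℕ} : Formula p n → (Fin n → ZMod p) → Prop
  | .test i C, x => x i ∈ C
  | .not f, x => ¬ f.Accepts x
  | .and f g, x => f.Accepts x ∧ g.Accepts x
  | .or f g, x => f.Accepts x ∨ g.Accepts x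

/-- `A` is the union of `T` sets, each of which is decided by a formula with at most `S` leaves. -/
def UnionOf {p n : ℕ} (T S : ℕ) (A : Finset (Fin n → ZMod p)) : Prop :=
  ∃ F : Fin T → Formula p n, (∀ j, (F j).leaves ≤ S) ∧ ∀ x, x ∈ A ↔ ∃ j, (F j).Accepts x

/-- `A` contains no nontrivial `k`-term progression `x, x + y, …, x + (k - 1) y`. -/
def APFree (k p n : ℕ) (A : Finset (Fin n → ZMod p)) : Prop :=
  ∀ x y : Fin n → ZMod p, (∀ j : ℕ, j < k → x + j • y ∈ A) → y = 0

/-- `A` contains no nontrivial `k`-term progression whose common difference has all coordinates in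
`{0, 1}`. -/
def BinaryAPFree (k p n : ℕ) (A : Finset (Fin n → ZMod p)) : Prop :=
  ∀ x y : Fin n → ZMod p, (∀ i, y i = 0 ∨ y i = 1) → (∀ j : ℕ, j < k → x + j • y ∈ A) → y = 0

open Pool.Agent.H564R2.QF Pool.Agent.Y607.LP

open Classical in
/-- the same formula for the library -/
noncomputable def Formula.conv {p n : ℕ} : Formula p n → Fml (Fin n × (ZMod p → Bool))
  | .test i C => .var (i, fun a => decide (a ∈ C))
  | .not f => .neg f.conv
  | .and f g => .and f.conv g.conv
  | .or f g => .or f.conv g.conv

lemma conv_size {p n : ℕ} (f : Formula p n) : f.conv.size = f.leaves := by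
  induction f with
  | test i C => rfl
  | not f ih => exact ih
  | and f g ih ih' => simp only [Formula.conv, Fml.size, Formula.leaves, ih, ih']
  | or f g ih ih' => simp only [Formula.conv, Fml.size, Formula.leaves, ih, ih']

lemma conv_acc {p n : ℕ} (f : Formula p n) (x : Fin n → ZMod p) :
    Accp f.conv x ↔ f.Accepts x := by
  unfold Accp
  induction f with
  | test i C => simp [Formula.conv, Fml.eval, Formula.Accepts]
  | not f ih => simp [Formula.conv, Fml.eval, Formula.Accepts, ← ih]
  | and f g ih ih' => simp [Formula.conv, Fml.eval, Formula.Accepts, ← ih, ← ih']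
  | or f g ih ih' => simp [Formula.conv, Fml.eval, Formula.Accepts, ← ih, ← ih']

lemma bound (p k n S T : ℕ) (hp : p.Prime) (hk : 2 ≤ k) (A : Finset (Fin n → ZMod p))
    (hA : BinaryAPFree k p n A) (h : UnionOf T S A) :
    (A.card : ℝ) ≤ T * (k * (p : ℝ) ^ n * Real.exp (-(cst * n ^ 2 / (k ^ 2 * (S + n))))) := by
  classical
  have : NeZero p := ⟨hp.ne_zero⟩
  have : Fact p.Prime := ⟨hp⟩
  obtain ⟨F, hF, hFA⟩ := h
  have h1 := main k n S T hk (L := ZMod p) (fun j _ => Equiv.addRight ((j : ℕ) : ZMod p)) A
    (fun j => (F j).conv) (fun j => by rw [conv_size]; exact hF j)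
    (fun x => by rw [hFA]; simp only [conv_acc]) (by
      intro x W hW
      have h2 := hA x (fun v => if v ∈ W then 1 else 0) (fun v => by
        by_cases hv : v ∈ W <;> simp [hv]) (by
        intro j hj
        have h3 := hW ⟨j, hj⟩
        have h4 : mix (fun _ : Fin n => Equiv.addRight (((⟨j, hj⟩ : Fin k) : ℕ) : ZMod p)) W x =
            x + j • (fun v => if v ∈ W then (1 : ZMod p) else 0) := by
          funext v
          by_cases hv : v ∈ W <;> simp [mix, hv]
        rw [← h4]
        exact h3)
      ext v
      have h5 := congrFun h2 v
      by_cases hv : v ∈ W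
      · simp [hv] at h5
      · simp [hv])
  rw [ZMod.card] at h1
  exact h1

/-- There is an absolute constant `c > 0` with the following properties.
(1) Let `p` be a prime and `k ≥ 2`. If `A ⊆ F_p^n` contains no `k`-term progression with a nonzero
common difference in `{0, 1}^n`, and `A` is a union of `T` sets decided by formulas with at most `S`
leaves, then `|A| ≤ T k p^n exp (- c n² / (k² (S + n)))`.
(2) So for every prime `p`, every `k` with `2 ≤ k ≤ p` and every `K` there are `λ < p` and `δ > 0`
such that `|A| ≤ k λ^n` for all `n` and for every set `A ⊆ F_p^n` without nontrivial `k`-term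
progressions that is a union of at most `exp (δ n)` sets decided by formulas with at most `K n`
leaves. -/
theorem result : ∃ c : ℝ, 0 < c ∧
    (∀ (p k n S T : ℕ), p.Prime → 2 ≤ k → ∀ A : Finset (Fin n → ZMod p),
      BinaryAPFree k p n A → UnionOf T S A →
        (A.card : ℝ) ≤ T * k * (p : ℝ) ^ n * Real.exp (-(c * n ^ 2 / (k ^ 2 * (S + n))))) ∧
    (∀ (p k K : ℕ), p.Prime → 2 ≤ k → k ≤ p → ∃ lam δ : ℝ, lam < p ∧ 0 < δ ∧
      ∀ (n T : ℕ) (A : Finset (Fin n → ZMod p)), APFree k p n A → (T : ℝ) ≤ Real.exp (δ * n) →
        UnionOf T (K * n) A → (A.card : ℝ) ≤ k * lam ^ n) := by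
  refine ⟨cst, cst_pos, ?_, ?_⟩
  · intro p k n S T hp hk A hA h
    refine (bound p k n S T hp hk A hA h).trans (le_of_eq ?_)
    ring
  · intro p k K hp hk _
    have hkr : (2 : ℝ) ≤ k := by exact_mod_cast hk
    have hK : (0 : ℝ) ≤ K := by positivity
    set δ : ℝ := cst / (2 * (k ^ 2 * (K + 1))) with hδ
    have hδ0 : 0 < δ := by
      rw [hδ]
      have := cst_pos
      positivity
    have hp0 : (0 : ℝ) < p := by exact_mod_cast hp.pos
    refine ⟨p * Real.exp (-δ), δ, ?_, hδ0, ?_⟩
    · have : Real.exp (-δ) < 1 := by
        rw [Real.exp_lt_one_iff]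
        linarith
      nlinarith
    · intro n T A hA hT h
      have h1 := bound p k n (K * n) T hp hk A (fun x y _ h => hA x y h) h
      refine h1.trans ?_
      have h2 : Real.exp (-(cst * (n : ℝ) ^ 2 / (k ^ 2 * (((K * n : ℕ) : ℝ) + n)))) =
          Real.exp (-(2 * δ * n)) := by
        congr 1
        rw [hδ]
        rcases Nat.eq_zero_or_pos n with hn | hn
        · subst hn; simp
        · have hnr : (0 : ℝ) < n := by exact_mod_cast hn
          push_cast
          field_simp
      rw [h2]
      calc (T : ℝ) * (k * (p : ℝ) ^ n * Real.exp (-(2 * δ * n)))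
          ≤ Real.exp (δ * n) * (k * (p : ℝ) ^ n * Real.exp (-(2 * δ * n))) :=
            mul_le_mul_of_nonneg_right hT (by positivity)
        _ = k * (p : ℝ) ^ n * (Real.exp (δ * n) * Real.exp (-(2 * δ * n))) := by ring
        _ = k * (p : ℝ) ^ n * Real.exp (-δ) ^ n := by
            rw [← Real.exp_add, ← Real.exp_nat_mul]
            congr 2
            ring
        _ = k * (p * Real.exp (-δ)) ^ n := by rw [mul_pow]; ring

end Pool.Agent.Results.MP_b30443_co.SmallFormulas
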