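import Mathlib
import Pool.Agent.H309R2.AP3.Level
import Pool.Agent.Y590.AP.Data

/-!
Lower bounds for progression-free subsets of `F_p^n` for the small primes `p = 5, 7, 11, 13, 17`.
-/

set_option autoImplicit false

namespace Pool.Agent.Results.MP_b30443_co.SmallPrimes

open Finset Filter Topology
open Pool.Agent.H309R2.AP3
open Pool.Agent.Y590.AP

/-- `A ⊆ F_p^n` contains no nontrivial `k`-term progression `x, x+y, …, x+(k-1)y` with `y ≠ 0`. -/
def APFree (k p n : ℕ) (A : Finset (Fin n → ZMod p)) : Prop :=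
  ∀ x y : Fin n → ZMod p, (∀ i : ℕ, i < k → x + i • y ∈ A) → y = 0

/-- `r_k(F_p^n)`: the largest size of a subset of `F_p^n` without nontrivial `k`-term
progressions. -/
noncomputable def r (k p n : ℕ) : ℕ :=
  sSup {m : ℕ | ∃ A : Finset (Fin n → ZMod p), APFree k p n A ∧ A.card = m}

section
variable {k p : ℕ} [hp : Fact p.Prime]

lemma bdd (n : ℕ) : BddAbove {N | ∃ A : Finset (Fin n → ZMod p), APFree k p n A ∧ A.card = N} := by
  refine ⟨p ^ n, ?_⟩
  rintro N ⟨A, _, rfl⟩
  calc A.card ≤ (univ : Finset (Fin n → ZMod p)).card := card_le_univ A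
    _ = p ^ n := by simp [ZMod.card]

lemma le_r {n : ℕ} {A : Finset (Fin n → ZMod p)} (h : APFree k p n A) : A.card ≤ r k p n :=
  le_csSup (bdd n) ⟨A, h, rfl⟩

lemma r_le (n : ℕ) : r k p n ≤ p ^ n := by
  apply csSup_le'
  rintro N ⟨A, _, rfl⟩
  calc A.card ≤ (univ : Finset (Fin n → ZMod p)).card := card_le_univ A
    _ = p ^ n := by simp [ZMod.card]

lemma exists_r (n : ℕ) (hk : 1 ≤ k) :
    ∃ A : Finset (Fin n → ZMod p), APFree k p n A ∧ A.card = r k p n := by
  have hne : {N | ∃ A : Finset (Fin n → ZMod p), APFree k p n A ∧ A.card = N}.Nonempty := by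
    refine ⟨0, ∅, ?_, rfl⟩
    intro x y h
    have := h 0 (by omega)
    simp at this
  exact Nat.sSup_mem hne (bdd n)

lemma one_le_r (n : ℕ) (hk : 2 ≤ k) : 1 ≤ r k p n := by
  have h : APFree k p n ({0} : Finset (Fin n → ZMod p)) := by
    intro x y h
    have h0 := h 0 (by omega)
    have h1 := h 1 (by omega)
    simp at h0 h1
    rw [h0] at h1
    simpa using h1
  have := le_r h
  simpa using this

lemma r_mul_le (m n : ℕ) (hk : 1 ≤ k) : r k p m * r k p n ≤ r k p (m + n) := by
  classical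
  obtain ⟨A, hA, hAc⟩ := exists_r (k := k) (p := p) m hk
  obtain ⟨B, hB, hBc⟩ := exists_r (k := k) (p := p) n hk
  set e := Fin.appendEquiv (α := ZMod p) m n with he
  have hfree : APFree k p (m + n) ((A ×ˢ B).map e.toEmbedding) := by
    intro x y hcon
    have hmem : ∀ j < k, (fun i => x (Fin.castAdd n i)) + j • (fun i => y (Fin.castAdd n i)) ∈ A ∧
        (fun i => x (Fin.natAdd m i)) + j • (fun i => y (Fin.natAdd m i)) ∈ B := by
      intro j hj
      have := hcon j hj
      rw [Finset.mem_map] at this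
      obtain ⟨⟨a, b⟩, hab, hE⟩ := this
      rw [mem_product] at hab
      have hE' : Fin.append a b = x + j • y := hE
      constructor
      · have : (fun i => x (Fin.castAdd n i)) + j • (fun i => y (Fin.castAdd n i)) = a := by
          funext i
          have := congrFun hE' (Fin.castAdd n i)
          rw [Fin.append_left] at this
          simpa using this.symm
        rw [this]; exact hab.1
      · have : (fun i => x (Fin.natAdd m i)) + j • (fun i => y (Fin.natAdd m i)) = b := by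
          funext i
          have := congrFun hE' (Fin.natAdd m i)
          rw [Fin.append_right] at this
          simpa using this.symm
        rw [this]; exact hab.2
    have hy1 := hA _ _ fun j hj => (hmem j hj).1
    have hy2 := hB _ _ fun j hj => (hmem j hj).2
    funext i
    refine Fin.addCases (fun i => ?_) (fun i => ?_) i
    · exact congrFun hy1 i
    · exact congrFun hy2 i
  have := le_r hfree
  rw [card_map, card_product, hAc, hBc] at this
  exact this

/-- The limit exists (Fekete). -/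
lemma exists_lim (hk : 2 ≤ k) :
    ∃ L : ℝ, Tendsto (fun n : ℕ => Real.log (r k p n) / n) atTop (𝓝 L) := by
  have hsub : Subadditive (fun n : ℕ => -Real.log (r k p n)) := by
    intro m n
    have h1 : (0 : ℝ) < r k p m := by exact_mod_cast one_le_r m hk
    have h2 : (0 : ℝ) < r k p n := by exact_mod_cast one_le_r n hk
    have h3 : Real.log (r k p m * r k p n : ℝ) ≤ Real.log (r k p (m + n)) := by
      apply Real.log_le_log (by positivity)
      exact_mod_cast r_mul_le m n (by omega)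
    rw [Real.log_mul h1.ne' h2.ne'] at h3
    simp only
    linarith
  have hbdd : BddBelow (Set.range fun n : ℕ => -Real.log (r k p n) / n) := by
    refine ⟨-Real.log p, ?_⟩
    rintro _ ⟨n, rfl⟩
    have hp1 : (1 : ℝ) < p := by exact_mod_cast hp.out.one_lt
    rcases Nat.eq_zero_or_pos n with hn | hn
    · subst hn
      simp only [Nat.cast_zero, div_zero]
      have := Real.log_pos hp1
      linarith
    · have hn' : (0 : ℝ) < n := by exact_mod_cast hn
      simp only
      rw [le_div_iff₀ hn']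
      have h1 : (0 : ℝ) < r k p n := by exact_mod_cast one_le_r n hk
      have h2 : Real.log (r k p n) ≤ Real.log ((p : ℝ) ^ n) := by
        apply Real.log_le_log h1
        exact_mod_cast r_le n
      rw [Real.log_pow] at h2
      nlinarith
  refine ⟨-hsub.lim, ?_⟩
  have := (hsub.tendsto_lim hbdd).neg
  refine this.congr ?_
  intro n
  simp [neg_div]

lemma log_div_tendsto (C : ℝ) (hC : 0 ≤ C) :
    Tendsto (fun n : ℕ => Real.log ((n : ℝ) * C + 1) / n) atTop (𝓝 0) := by
  have h0 : Tendsto (fun x : ℝ => Real.log x / x) atTop (𝓝 0) := by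
    have := Real.isLittleO_log_id_atTop.tendsto_div_nhds_zero
    simpa using this
  have h1 : Tendsto (fun n : ℕ => Real.log ((n : ℝ)) / n) atTop (𝓝 0) :=
    h0.comp tendsto_natCast_atTop_atTop
  have h2 : Tendsto (fun n : ℕ => Real.log (C + 1) / (n : ℝ)) atTop (𝓝 0) :=
    tendsto_const_nhds.div_atTop tendsto_natCast_atTop_atTop
  have h3 := h1.add h2
  rw [add_zero] at h3
  refine tendsto_of_tendsto_of_tendsto_of_le_of_le' tendsto_const_nhds h3 ?_ ?_
  · filter_upwards [eventually_gt_atTop 0] with n hn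
    have hn' : (0 : ℝ) < n := by exact_mod_cast hn
    apply div_nonneg _ hn'.le
    apply Real.log_nonneg
    have : 0 ≤ (n : ℝ) * C := by positivity
    linarith
  · filter_upwards [eventually_gt_atTop 0] with n hn
    have hn' : (0 : ℝ) < n := by exact_mod_cast hn
    have hn1 : (1 : ℝ) ≤ n := by exact_mod_cast hn
    rw [← add_div]
    apply div_le_div_of_nonneg_right _ hn'.le
    rw [← Real.log_mul hn'.ne' (by positivity)]
    apply Real.log_le_log (by positivity)
    nlinarith

/-- A peelable set bounds the growth rate from below. -/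
lemma log_card_le (hk : 3 ≤ k) (hkp : k ≤ p) {L : ℝ}
    (hL : Tendsto (fun n : ℕ => Real.log (r k p n) / n) atTop (𝓝 L))
    {d : ℕ} (hd : 1 ≤ d) {S : Finset (Fin d → ZMod p)} (hS : Peel S) (hne : 1 ≤ S.card) :
    Real.log S.card ≤ d * L := by
  have hp3 : 3 ≤ p := hk.trans hkp
  have hodd : Odd p := hp.out.odd_of_ne_two (by omega)
  have : NeZero p := ⟨by omega⟩
  have hd' : (0 : ℝ) < d := by exact_mod_cast hd
  have key : ∀ N : ℕ, S.card ^ N ≤ (N * 3 ^ S.card + 1) * r k p (N * d) := by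
    intro N
    obtain ⟨A, hA1, hA2⟩ := exists_level' hodd hS N
    refine hA1.trans (Nat.mul_le_mul_left _ (le_r ?_))
    intro x y h
    have h0 := h 0 (by omega)
    have h1 := h 1 (by omega)
    have h2 := h 2 (by omega)
    have h3 := hA2 _ h0 _ h2 _ h1 (by
      simp only [zero_smul, add_zero, one_smul, two_smul]
      abel)
    have h4 : (0 : Fin (N * d) → ZMod p) = y + y := by
      rw [zero_smul, add_zero, two_smul] at h3
      exact add_left_cancel (a := x) (by rw [add_zero]; exact h3)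
    have h5 : (0 : Fin (N * d) → ZMod p) = y := two_inj hodd (by rw [add_zero]; exact h4)
    exact h5.symm
  have hlow : ∀ᶠ N : ℕ in atTop, Real.log S.card - Real.log ((N : ℝ) * (3 ^ S.card : ℕ) + 1) / N ≤
      d * (Real.log (r k p (N * d)) / ((N * d : ℕ) : ℝ)) := by
    filter_upwards [eventually_gt_atTop 0] with N hN
    have hN' : (0 : ℝ) < N := by exact_mod_cast hN
    have hc : (0 : ℝ) < S.card := by exact_mod_cast hne
    have hr : (0 : ℝ) < r k p (N * d) := by exact_mod_cast one_le_r (N * d) (by omega)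
    have h3 : ((S.card : ℝ)) ^ N ≤ ((N : ℝ) * (3 ^ S.card : ℕ) + 1) * r k p (N * d) := by
      exact_mod_cast key N
    have h4 := Real.log_le_log (by positivity) h3
    rw [Real.log_mul (by positivity) hr.ne', Real.log_pow] at h4
    have e : (d : ℝ) * (Real.log (r k p (N * d)) / ((N * d : ℕ) : ℝ)) =
        Real.log (r k p (N * d)) / N := by
      push_cast
      field_simp
    rw [e, sub_le_iff_le_add, ← add_div, le_div_iff₀ hN']
    linarith
  have hL' : Tendsto (fun N : ℕ => (d : ℝ) * (Real.log (r k p (N * d)) / ((N * d : ℕ) : ℝ))) atTop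
      (𝓝 (d * L)) := by
    apply Tendsto.const_mul
    exact hL.comp (tendsto_id.atTop_mul_const' (by omega : 0 < d))
  have hleft : Tendsto (fun N : ℕ => Real.log S.card -
      Real.log ((N : ℝ) * (3 ^ S.card : ℕ) + 1) / N) atTop (𝓝 (Real.log S.card - 0)) :=
    tendsto_const_nhds.sub (log_div_tendsto _ (by positivity))
  rw [sub_zero] at hleft
  exact le_of_tendsto_of_tendsto hleft hL' hlow

/-- A checked list of points of `F_p^d` bounds the growth rate from below. -/
lemma rate_ge (hk : 3 ≤ k) (hkp : k ≤ p) {L : ℝ}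
    (hL : Tendsto (fun n : ℕ => Real.log (r k p n) / n) atTop (𝓝 L))
    {d : ℕ} (hd : 1 ≤ d) (l : List ℕ) (hl : chk p d l [] 0 = true) (m : ℕ) (hm : l.length = m)
    (hm1 : 1 ≤ m) : (m : ℝ) ^ (1 / (d : ℝ)) ≤ Real.exp L := by
  obtain ⟨S, hS, hc⟩ := peel_of_chk p d (by omega) l hl
  rw [hm] at hc
  have h := log_card_le hk hkp hL hd hS (by omega)
  rw [hc] at h
  have hm0 : (0 : ℝ) < m := by exact_mod_cast hm1
  have hd0 : (0 : ℝ) < d := by exact_mod_cast hd
  rw [Real.rpow_def_of_pos hm0]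
  apply Real.exp_le_exp.2
  rw [mul_one_div, div_le_iff₀ hd0]
  linarith

end

/-- **Theorem.** For `3 ≤ k ≤ p` the growth rate `λ_{k,p}` satisfies
`λ_{k,5} ≥ 36^(1/3) > 3.3019`, `λ_{k,7} ≥ 85^(1/3) > 4.3968`, `λ_{k,11} ≥ 44^(1/2) > 6.6332`,
`λ_{k,13} ≥ 60^(1/2) > 7.7459` and `λ_{k,17} ≥ 97^(1/2) > 9.8488`. -/
theorem result (k p : ℕ) [Fact p.Prime] (hk : 3 ≤ k) (hkp : k ≤ p) :
    ∃ L : ℝ, Tendsto (fun n : ℕ => (r k p n : ℝ) ^ (1 / (n : ℝ))) atTop (𝓝 L) ∧
      (p = 5 → (36 : ℝ) ^ (1 / 3 : ℝ) ≤ L ∧ 3.3019 < L) ∧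
      (p = 7 → (85 : ℝ) ^ (1 / 3 : ℝ) ≤ L ∧ 4.3968 < L) ∧
      (p = 11 → (44 : ℝ) ^ (1 / 2 : ℝ) ≤ L ∧ 6.6332 < L) ∧
      (p = 13 → (60 : ℝ) ^ (1 / 2 : ℝ) ≤ L ∧ 7.7459 < L) ∧
      (p = 17 → (97 : ℝ) ^ (1 / 2 : ℝ) ≤ L ∧ 9.8488 < L) := by
  obtain ⟨L, hL⟩ := exists_lim (k := k) (p := p) (by omega)
  have hlim : Tendsto (fun n : ℕ => (r k p n : ℝ) ^ (1 / (n : ℝ))) atTop (𝓝 (Real.exp L)) := by
    have h1 := (Real.continuous_exp.tendsto L).comp hL
    refine h1.congr ?_
    intro n
    have h2 : (0 : ℝ) < r k p n := by exact_mod_cast one_le_r n (by omega)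
    simp only [Function.comp]
    rw [Real.rpow_def_of_pos h2]
    congr 1
    ring
  have e3 : ∀ a m : ℝ, 0 ≤ a → 0 ≤ m → a ^ 3 < m → a < m ^ (1 / 3 : ℝ) := by
    intro a m ha hm h
    have h1 : (a ^ (3 : ℕ)) ^ (1 / 3 : ℝ) < m ^ (1 / 3 : ℝ) :=
      Real.rpow_lt_rpow (by positivity) h (by norm_num)
    have h2 : (a ^ (3 : ℕ)) ^ (1 / 3 : ℝ) = a := by
      rw [← Real.rpow_natCast, ← Real.rpow_mul ha]
      norm_num
    rwa [h2] at h1
  have e2 : ∀ a m : ℝ, 0 ≤ a → 0 ≤ m → a ^ 2 < m → a < m ^ (1 / 2 : ℝ) := by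
    intro a m ha hm h
    have h1 : (a ^ (2 : ℕ)) ^ (1 / 2 : ℝ) < m ^ (1 / 2 : ℝ) :=
      Real.rpow_lt_rpow (by positivity) h (by norm_num)
    have h2 : (a ^ (2 : ℕ)) ^ (1 / 2 : ℝ) = a := by
      rw [← Real.rpow_natCast, ← Real.rpow_mul ha]
      norm_num
    rwa [h2] at h1
  refine ⟨Real.exp L, hlim, ?_, ?_, ?_, ?_, ?_⟩
  · rintro rfl
    have h := rate_ge hk hkp hL (d := 3) (by norm_num) l5 chk5 36 len5 (by norm_num)
    norm_num only [Nat.cast_ofNat] at h
    exact ⟨h, lt_of_lt_of_le (e3 _ _ (by norm_num) (by norm_num) (by norm_num)) h⟩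
  · rintro rfl
    have h := rate_ge hk hkp hL (d := 3) (by norm_num) l7 chk7 85 len7 (by norm_num)
    norm_num only [Nat.cast_ofNat] at h
    exact ⟨h, lt_of_lt_of_le (e3 _ _ (by norm_num) (by norm_num) (by norm_num)) h⟩
  · rintro rfl
    have h := rate_ge hk hkp hL (d := 2) (by norm_num) l11 chk11 44 len11 (by norm_num)
    norm_num only [Nat.cast_ofNat] at h
    exact ⟨h, lt_of_lt_of_le (e2 _ _ (by norm_num) (by norm_num) (by norm_num)) h⟩
  · rintro rfl
    have h := rate_ge hk hkp hL (d := 2) (by norm_num) l13 chk13 60 len13 (by norm_num)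
    norm_num only [Nat.cast_ofNat] at h
    exact ⟨h, lt_of_lt_of_le (e2 _ _ (by norm_num) (by norm_num) (by norm_num)) h⟩
  · rintro rfl
    have h := rate_ge hk hkp hL (d := 2) (by norm_num) l17 chk17 97 len17 (by norm_num)
    norm_num only [Nat.cast_ofNat] at h
    exact ⟨h, lt_of_lt_of_le (e2 _ _ (by norm_num) (by norm_num) (by norm_num)) h⟩

end Pool.Agent.Results.MP_b30443_co.SmallPrimes
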